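import Mathlib
import Pool.Agent.N735.CL.GumP

/-!
# Primes just above the powers of two: the law for almost all patterns

The problem asks whether for every `n` one of `2 ^ n + 1, 2 ^ n + 2, ..., 2 ^ n + p_n` is a prime
(for `n ≥ 2` this is the same as a prime in `[2 ^ n, 2 ^ n + p_n]`). We replace the
pattern `1, 2, ..., p_N` of consecutive integers by an arbitrary pattern `h_1, ..., h_{p_N}` with
entries in `{1, ..., 2 ^ N}` and prove, unconditionally, that for almost all patterns the last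
exponent `n ≤ N` for which none of `2 ^ n + h_1, ..., 2 ^ n + h_{p_n}` is a prime is `(log 2 + o(1)) N`.

This follows from a limit law for the translates by the elements of an arbitrary sparse set `S` (with
`|S| → ∞` and `log |S| = o(log X / log log X)`, `S ⊆ {1, ..., X}`): for a random pattern with
entries in `{1, ..., X}` and of length `log X (log |S| + t)` the number of the `m ∈ S` such
that no `m + h_i` is a prime has asymptotically the Poisson distribution with mean `exp (-t)`.

The factorial moments are computed from the prime number theorem (with an error term) for the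
single translates and an upper bound sieve for pairs of primes, both from the starting files.
-/

set_option autoImplicit false
set_option maxHeartbeats 1000000

namespace Pool.Agent.Results.MP_78b39f_nt.PoissonLawForPatterns

open Finset Filter Topology

/-- the patterns of length `K` with entries in `{1, ..., X}` -/
def patterns (X K : ℕ) : Finset (Fin K → ℕ) := Fintype.piFinset fun _ => Icc 1 X

open Classical in
/-- the proportion of the patterns of length `K` with entries in `{1, ..., X}` which have the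
property `B` -/
noncomputable def proportion (X K : ℕ) (B : (Fin K → ℕ) → Prop) : ℝ :=
  (((patterns X K).filter B).card : ℝ) / (patterns X K).card

open Classical in
/-- the number of the `m ∈ S` such that none of `m + h_i`, `i ≤ K₀`, is a prime (the entries of the
pattern `h` are `h_1 = h 0, h_2 = h 1, ...`) -/
noncomputable def failures (S : Finset ℕ) (K₀ : ℕ) {K : ℕ} (h : Fin K → ℕ) : ℕ :=
  (S.filter fun m => ∀ i : Fin K, (i : ℕ) < K₀ → ¬ (m + h i).Prime).card

/-- the `n`-th prime, `p_1 = 2` -/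
noncomputable def p (n : ℕ) : ℕ := Nat.nth Nat.Prime (n - 1)

/-- the number of the primes in `[2 ^ n, 2 ^ n + p_n]` -/
noncomputable def a (n : ℕ) : ℕ := ((Icc (2 ^ n) (2 ^ n + p n)).filter Nat.Prime).card

/-- one of `2 ^ n + h_i`, `i ≤ p_n`, is a prime -/
def HasPrime {K : ℕ} (h : Fin K → ℕ) (n : ℕ) : Prop := ∃ i : Fin K, (i : ℕ) < p n ∧ (2 ^ n + h i).Prime

lemma prop_eq {X K : ℕ} (B : (Fin K → ℕ) → Prop) : proportion X K B = Pool.Agent.N735.CL.PK X K B := by
  classical
  rw [Pool.Agent.N735.CL.PK_eq]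
  unfold proportion patterns
  have h : ((Fintype.piFinset fun _ : Fin K => Icc 1 X).card : ℝ) = (X : ℝ) ^ K := by
    have := Pool.Agent.N735.CL.card_Om X K
    unfold Pool.Agent.N735.CL.Om at this
    rw [this]; push_cast; rfl
  rw [h]
  unfold Pool.Agent.N735.CL.Om
  congr!

lemma interval (N n : ℕ) (hn : 1 ≤ n) (hnN : n ≤ N) :
    HasPrime (fun i : Fin (p N) => (i : ℕ) + 1) n ↔ 1 ≤ a n := by
  have hmono : p n ≤ p N := Pool.Agent.N735.CL.pn_mono hnN
  unfold HasPrime a
  rw [Nat.succ_le_iff, card_pos]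
  constructor
  · rintro ⟨i, hi, hp⟩
    simp only at hp
    exact ⟨_, mem_filter.2 ⟨mem_Icc.2 ⟨by omega, by omega⟩, hp⟩⟩
  · rintro ⟨q, hq⟩
    rw [mem_filter, mem_Icc] at hq
    obtain ⟨⟨h1, h2⟩, h3⟩ := hq
    rcases Nat.lt_or_ge (2 ^ n) q with h | h
    · have hlt : q - 2 ^ n - 1 < p N := by omega
      refine ⟨⟨q - 2 ^ n - 1, hlt⟩, ?_, ?_⟩
      · simp only; omega
      · have e : 2 ^ n + (q - 2 ^ n - 1 + 1) = q := by omega
        simp only
        rw [e]; exact h3
    · have hq : q = 2 ^ n := by omega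
      have hn1 : n = 1 := by
        by_contra hne
        rw [hq] at h3
        exact Nat.Prime.not_prime_pow' hne h3
      subst hn1
      have hp1 : p 1 = 2 := Nat.nth_prime_zero_eq_two
      have hlt : 0 < p N := by omega
      exact ⟨⟨0, hlt⟩, by rw [hp1]; norm_num, by norm_num⟩

lemma failures_eq (S : Finset ℕ) {K₀ K : ℕ} (hle : K₀ ≤ K) (h : Fin K → ℕ) :
    Pool.Agent.N735.CL.fails S (fun i : Fin K₀ => h (Fin.castLE hle i)) = failures S K₀ h := by
  classical
  unfold Pool.Agent.N735.CL.fails failures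
  congr 1
  ext m
  rw [mem_filter, mem_filter]
  have := Pool.Agent.N735.CL.Nm_ne hle h m
  constructor
  · rintro ⟨h1, h2⟩
    refine ⟨h1, fun i hi hp => ?_⟩
    exact (this.2 ⟨i, hi, hp⟩) h2
  · rintro ⟨h1, h2⟩
    refine ⟨h1, ?_⟩
    by_contra hc
    obtain ⟨i, hi, hp⟩ := this.1 hc
    exact h2 i hi hp

lemma unwind {P : ℕ × Finset ℕ → Prop} (h : ∀ᶠ x in Pool.Agent.N735.CL.gf, P x) : ∃ δ : ℝ, 0 < δ ∧ ∃ N₀ : ℕ,
    ∀ X : ℕ, N₀ ≤ X → ∀ S ⊆ Icc 1 X, N₀ ≤ S.card →
      Real.log S.card * Real.log (Real.log X) ≤ δ * Real.log X → P (X, S) := by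
  have hb := ((((atTop_basis (α := ℕ)).comap (Prod.fst : ℕ × Finset ℕ → ℕ)).inf
    ((atTop_basis (α := ℕ)).comap (fun x : ℕ × Finset ℕ => x.2.card))).inf
    ((Metric.nhds_basis_ball (x := (0 : ℝ))).comap
      (fun x : ℕ × Finset ℕ => Real.log x.2.card * Real.log (Real.log x.1) / Real.log x.1))).inf_principal
    {x : ℕ × Finset ℕ | x.2 ⊆ Icc 1 x.1}
  obtain ⟨⟨⟨a, b⟩, r⟩, ⟨_, hr⟩, H⟩ := hb.eventually_iff.1 h
  simp only at hr
  refine ⟨r / 2, by positivity, max (max a b) 16, fun X hX S hS hSc hq => ?_⟩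
  apply H
  have hXa : a ≤ X := ((le_max_left a b).trans (le_max_left _ _)).trans hX
  have hSb : b ≤ S.card := ((le_max_right a b).trans (le_max_left _ _)).trans hSc
  have hX16 : 16 ≤ X := (le_max_right _ _).trans hX
  have hX16r : (16 : ℝ) ≤ X := by exact_mod_cast hX16
  have hL : 1 ≤ Real.log (X : ℝ) := by
    have h1 : Real.log 16 ≤ Real.log (X : ℝ) := Real.log_le_log (by norm_num) hX16r
    have h2 : Real.log 16 = 4 * Real.log 2 := by
      rw [show (16 : ℝ) = 2 ^ 4 by norm_num, Real.log_pow]; norm_num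
    have h3 := Real.log_two_gt_d9
    linarith
  have hLL : 0 ≤ Real.log (Real.log (X : ℝ)) := Real.log_nonneg hL
  have hM : 0 ≤ Real.log (S.card : ℝ) := Real.log_natCast_nonneg _
  have hL0 : 0 < Real.log (X : ℝ) := by linarith
  refine ⟨⟨⟨hXa, hSb⟩, ?_⟩, hS⟩
  show Real.log S.card * Real.log (Real.log X) / Real.log X ∈ Metric.ball (0 : ℝ) r
  rw [Metric.mem_ball, Real.dist_eq, sub_zero, abs_of_nonneg (by positivity), div_lt_iff₀ hL0]
  nlinarith

/-- **Primes just above the powers of two: the law for almost all patterns.** -/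
theorem result :
    -- the pattern of consecutive integers is the pattern of the problem
    (∀ N n : ℕ, 1 ≤ n → n ≤ N → (HasPrime (fun i : Fin (p N) => (i : ℕ) + 1) n ↔ 1 ≤ a n)) ∧
    -- for almost all patterns the last failure is at `n = (log 2 + o(1)) N`
    (∀ δ : ℝ, Real.log 2 < δ → Tendsto (fun N : ℕ => proportion (2 ^ N) (p N)
      (fun h => ∀ n ∈ Icc 1 N, δ * N ≤ n → HasPrime h n)) atTop (𝓝 1)) ∧
    (∀ δ : ℝ, δ < Real.log 2 → Tendsto (fun N : ℕ => proportion (2 ^ N) (p N)
      (fun h => ∀ n ∈ Icc 1 N, δ * N ≤ n → HasPrime h n)) atTop (𝓝 0)) ∧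
    -- the number of the failures in a sparse set is asymptotically Poisson
    (∀ (t : ℝ) (k : ℕ) (θ : ℝ), 0 < θ → ∃ δ : ℝ, 0 < δ ∧ ∃ N₀ : ℕ,
      ∀ X : ℕ, N₀ ≤ X → ∀ S ⊆ Icc 1 X, N₀ ≤ S.card →
        Real.log S.card * Real.log (Real.log X) ≤ δ * Real.log X →
        ∀ K : ℕ, Real.log X * (Real.log S.card + t) ≤ K →
          |proportion X K (fun h => failures S ⌊Real.log X * (Real.log S.card + t)⌋₊ h = k) -
            Real.exp (-Real.exp (-t)) * Real.exp (-t) ^ k / k.factorial| ≤ θ) := by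
  refine ⟨interval, fun δ hδ => ?_, fun δ hδ => ?_, fun t k θ hθ => ?_⟩
  · simp_rw [prop_eq]
    exact Pool.Agent.N735.CL.pow_law_up δ hδ
  · simp_rw [prop_eq]
    exact Pool.Agent.N735.CL.pow_law_lo δ hδ
  · have h1 := (Metric.tendsto_nhds.1 (Pool.Agent.N735.CL.poisson_lim t k)) θ hθ
    obtain ⟨δ, hδ, N₀, h⟩ := unwind h1
    refine ⟨δ, hδ, max N₀ 1, fun X hX S hS hSc hq K hK => ?_⟩
    have h2 := h X ((le_max_left _ _).trans hX) S hS ((le_max_left _ _).trans hSc) hq
    simp only at h2
    rw [Real.dist_eq] at h2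
    have hX1 : 1 ≤ X := (le_max_right _ _).trans hX
    have hle : Pool.Agent.N735.CL.Kt t X S.card ≤ K := by
      unfold Pool.Agent.N735.CL.Kt
      exact Nat.floor_le_of_le hK
    rw [← Pool.Agent.N735.CL.fails_pre hX1 S _ K hle k] at h2
    rw [prop_eq]
    have e : (fun h : Fin K → ℕ => Pool.Agent.N735.CL.fails S (fun i : Fin (Pool.Agent.N735.CL.Kt t X S.card) => h (Fin.castLE hle i)) = k) =
        (fun h : Fin K → ℕ => failures S ⌊Real.log X * (Real.log S.card + t)⌋₊ h = k) := by
      funext h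
      rw [failures_eq S hle h]
      rfl
    rw [e] at h2
    exact h2.le

end Pool.Agent.Results.MP_78b39f_nt.PoissonLawForPatterns
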