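import Mathlib
import Pool.Agent.N953.P2.Law
import Pool.Agent.N740.HK.Sch

/-!
# Primes just above powers of two, in all sequential random models of the primes

The integers are decided one after the other and the conditional probability of choosing `n + 1`,
given the decisions up to `n`, is asymptotic to `1 / log n`, almost surely.  Nothing else is assumed:
no independence and no rate of convergence.  The independent model of Cramér and the random sieve of
Hawkins are examples.  (helper953 and helper740)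
-/

set_option autoImplicit false

open MeasureTheory Filter Set ProbabilityTheory
open scoped Topology

namespace Pool.Agent.Results.MP_78b39f_nt.SequentialModels

variable {Ω : Type}

/-- `A n` is the event that `n` is chosen.  The events are adapted to the filtration `ℱ` and the
conditional probability of `A (n + 1)` given `ℱ n`, times `log n`, tends to `1` almost surely. -/
def SequentialModel [m : MeasurableSpace Ω] (μ : Measure Ω) (ℱ : Filtration ℕ m) (A : ℕ → Set Ω) : Prop :=
  (∀ n, MeasurableSet[ℱ n] (A n)) ∧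
  ∀ᵐ ω ∂μ, Tendsto (fun n : ℕ => (μ[(A (n + 1)).indicator (fun _ => (1 : ℝ)) | ℱ n]) ω * Real.log n) atTop (𝓝 1)

/-- The model of Cramér: independent events, `n` is chosen with probability `1 / log n` for `n ≥ 3`. -/
def CramerModel [MeasurableSpace Ω] (μ : Measure Ω) (A : ℕ → Set Ω) : Prop :=
  (∀ n, MeasurableSet (A n)) ∧ iIndepSet A μ ∧ ∀ n : ℕ, 3 ≤ n → μ (A n) = ENNReal.ofReal (1 / Real.log n)

open Classical in
/-- The random sieve of Hawkins: `2` is chosen, and given the decisions up to `n ≥ 2` the number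
`n + 1` is chosen with probability `∏ (1 - 1 / h)`, the product over the chosen `2 ≤ h ≤ n`. -/
def HawkinsSieve [m : MeasurableSpace Ω] (μ : Measure Ω) (ℱ : Filtration ℕ m) (A : ℕ → Set Ω) : Prop :=
  (∀ n, MeasurableSet[ℱ n] (A n)) ∧ A 2 = univ ∧
  ∀ n, 2 ≤ n → μ[(A (n + 1)).indicator (fun _ => (1 : ℝ)) | ℱ n] =ᵐ[μ]
    fun ω => ∏ h ∈ Finset.Icc 2 n, if ω ∈ A h then 1 - 1 / (h : ℝ) else 1

/-- the `n`-th element of `S` in increasing order, the least element having the number `1` -/
noncomputable def pS (S : Set ℕ) (n : ℕ) : ℕ := Nat.nth (· ∈ S) (n - 1)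

/-- the number of elements of `S` in the closed interval `[b ^ n, b ^ n + pS S n]` -/
noncomputable def aS (S : Set ℕ) (b n : ℕ) : ℕ := {k | k ∈ S ∧ b ^ n ≤ k ∧ k ≤ b ^ n + pS S n}.ncard

/-- the least element of `S` which is at least `x` -/
noncomputable def nextS (S : Set ℕ) (x : ℕ) : ℕ := sInf {k | k ∈ S ∧ x ≤ k}

open Pool.Agent.N740.HK Pool.Agent.R528.RM

lemma prod_inv (A : ℕ → Set Ω) (n : ℕ) (ω : Ω) [DecidablePred fun h => ω ∈ A h] :
    (∏ h ∈ Finset.Icc 2 n, if ω ∈ A h then 1 - 1 / (h : ℝ) else 1) = (Y A n ω)⁻¹ := by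
  unfold Y
  rw [← Finset.prod_inv_distrib]
  refine Finset.prod_congr rfl fun h hh => ?_
  have h2 : (2 : ℝ) ≤ h := by exact_mod_cast (Finset.mem_Icc.1 hh).1
  by_cases hA : ω ∈ A h
  · rw [if_pos hA, if_pos hA, inv_div]
    field_simp
  · rw [if_neg hA, if_neg hA, inv_one]

lemma log_ratio : Tendsto (fun n : ℕ => (Real.log ((n + 1 : ℕ) : ℝ))⁻¹ * Real.log n) atTop (𝓝 1) := by
  have h1 : Tendsto (fun n : ℕ => Real.log ((n : ℝ) + 1) - Real.log n) atTop (𝓝 0) := by
    have h1 : Tendsto (fun n : ℕ => 1 + (1 : ℝ) / n) atTop (𝓝 (1 + 0)) :=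
      tendsto_const_nhds.add tendsto_one_div_atTop_nhds_zero_nat
    rw [add_zero] at h1
    have h2 := (Real.continuousAt_log (one_ne_zero)).tendsto.comp h1
    rw [Real.log_one] at h2
    refine h2.congr' ?_
    filter_upwards [eventually_gt_atTop 0] with n hn
    have hn' : (0 : ℝ) < n := by exact_mod_cast hn
    show Real.log (1 + 1 / (n : ℝ)) = _
    rw [← Real.log_div (by positivity) hn'.ne']
    congr 1
    field_simp
  have h2 : Tendsto (fun n : ℕ => Real.log ((n : ℝ) + 1)) atTop atTop :=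
    Real.tendsto_log_atTop.comp (tendsto_atTop_add_const_right _ _ tendsto_natCast_atTop_atTop)
  have h3 := h1.div_atTop h2
  have h4 : Tendsto (fun n : ℕ => 1 - (Real.log ((n : ℝ) + 1) - Real.log n) / Real.log ((n : ℝ) + 1)) atTop (𝓝 (1 - 0)) :=
    tendsto_const_nhds.sub h3
  rw [sub_zero] at h4
  refine h4.congr' ?_
  filter_upwards [h2.eventually_gt_atTop 0] with n hn
  push_cast
  field_simp
  ring

end Pool.Agent.Results.MP_78b39f_nt.SequentialModels

open Pool.Agent.Results.MP_78b39f_nt.SequentialModels Pool.Agent.N740.HK Pool.Agent.R528.RM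

/-- The random sieve of Hawkins is a sequential model, the model of Cramér is one for some filtration.
In every sequential model, almost surely, with `P n` the `n`-th chosen integer: `P n ~ n log n`; the
interval `[2 ^ n, 2 ^ n + P n]` contains a chosen integer for all large `n`, and the number `a n` of
the chosen integers in it satisfies `liminf a n / log n = u / log 2`, `limsup a n / log n = v / log 2`,
where `u < 1 < v` are the two solutions of `x log x - x + 1 = log 2`; for every base `b ≥ 2` the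
distance from `b ^ n` to the next chosen integer has upper limit `log b` in the scale `n log n`, and
for `b ≥ 3` the interval `[b ^ n, b ^ n + P n]` contains no chosen integer for infinitely many `n`. -/
theorem Pool.Agent.Results.MP_78b39f_nt.SequentialModels.result
    {Ω : Type} [m : MeasurableSpace Ω] (μ : Measure Ω) [IsProbabilityMeasure μ] (A : ℕ → Set Ω) :
    (CramerModel μ A → ∃ ℱ : Filtration ℕ m, SequentialModel μ ℱ A) ∧
    ∃ u v : ℝ, (1 / 12 < u ∧ u < 1 / 9 ∧ u * Real.log u - u + 1 = Real.log 2) ∧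
    (9 / 4 < v ∧ v < 8 / 3 ∧ v * Real.log v - v + 1 = Real.log 2) ∧
    ∀ ℱ : Filtration ℕ m,
    (HawkinsSieve μ ℱ A → SequentialModel μ ℱ A) ∧
    (SequentialModel μ ℱ A →
      ∀ᵐ ω ∂μ,
        Tendsto (fun n : ℕ => (pS {k | ω ∈ A k} n : ℝ) / (n * Real.log n)) atTop (𝓝 1) ∧
        (∀ᶠ n : ℕ in atTop, 1 ≤ aS {k | ω ∈ A k} 2 n) ∧
        liminf (fun n : ℕ => (aS {k | ω ∈ A k} 2 n : ℝ) / Real.log n) atTop = u / Real.log 2 ∧
        limsup (fun n : ℕ => (aS {k | ω ∈ A k} 2 n : ℝ) / Real.log n) atTop = v / Real.log 2 ∧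
        (∀ b : ℕ, 2 ≤ b → limsup (fun n : ℕ => ((nextS {k | ω ∈ A k} (b ^ n) : ℝ) - (b : ℝ) ^ n) /
          (n * Real.log n)) atTop = Real.log b) ∧
        ∀ b : ℕ, 3 ≤ b → ∃ᶠ n : ℕ in atTop, aS {k | ω ∈ A k} b n = 0) := by
  classical
  obtain ⟨u, hu1, hu2, hu3⟩ := Pool.Agent.N953.P2.exists_u
  obtain ⟨v, hv1, hv2, hv3⟩ := Pool.Agent.N953.P2.exists_v
  refine ⟨?_, u, v, ⟨hu1, hu2, hu3⟩, ⟨hv1, hv2, hv3⟩, fun ℱ => ⟨?_, ?_⟩⟩
  · rintro ⟨hA, hi, hp⟩
    refine ⟨gen hA, gen_meas hA, ?_⟩
    have h1 : ∀ᵐ ω ∂μ, ∀ n, (μ[(A (n + 1)).indicator (fun _ => (1 : ℝ)) | gen hA n]) ω =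
        (μ (A (n + 1))).toReal := ae_all_iff.2 fun n => dens_gen hA hi n
    filter_upwards [h1] with ω hω
    refine log_ratio.congr' ?_
    filter_upwards [eventually_ge_atTop 2] with n hn
    rw [hω, hp (n + 1) (by omega), ENNReal.toReal_ofReal, one_div]
    have : 0 ≤ Real.log ((n + 1 : ℕ) : ℝ) := Real.log_natCast_nonneg _
    positivity
  · rintro ⟨h1, h2, h3⟩
    have hs : Pool.Agent.N740.HK.HS μ ℱ A := ⟨h1, h2, fun n hn => by
      filter_upwards [h3 n hn] with ω hω
      rw [← prod_inv]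
      exact hω⟩
    exact ⟨h1, Pool.Agent.N740.HK.hawk_dens hs⟩
  · rintro ⟨hA, hd⟩
    have hl2 : ((2 : ℕ) : ℝ) = 2 := by norm_num
    filter_upwards [Pool.Agent.N953.P2.pi_ae hA hd, up_ae hA hd,
      Pool.Agent.N953.P2.two_pos hA hd, Pool.Agent.N953.P2.three_void hA hd,
      Pool.Agent.N953.P2.next_law hA hd,
      Pool.Agent.N953.P2.liminf_aa hA hd (b := 2) le_rfl (s := u) (by linarith) (by linarith) (by rw [hl2]; exact hu3),
      Pool.Agent.N953.P2.limsup_aa hA hd (b := 2) le_rfl (s := v) (by linarith) (by rw [hl2]; exact hv3)]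
      with ω h1 h2 h3 h4 h5 h6 h7
    have hS : {k | ω ∈ A k}.Infinite := infinite_of (fun K => by
      obtain ⟨q, hq, hK⟩ := up_inf h2 K
      exact ⟨q, hK, hq⟩)
    have hP : Tendsto (fun n : ℕ => (pS {k | ω ∈ A k} n : ℝ) / (n * Real.log n)) atTop (𝓝 1) :=
      Pool.Agent.N953.P2.pn_law hS h1
    have ha : ∀ b : ℕ, 2 ≤ b → aS {k | ω ∈ A k} b =
        Pool.Agent.N953.P2.aa A (pS {k | ω ∈ A k}) b ω := by
      intro b hb
      funext n
      exact Pool.Agent.N953.P2.aa_ncard (pS {k | ω ∈ A k}) hb ω n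
    rw [ha 2 le_rfl]
    refine ⟨hP, h3 _ hP, ?_, ?_, h5 hS, fun b hb => ?_⟩
    · have := h6 _ hP
      rw [hl2] at this
      exact this
    · have := h7 _ hP
      rw [hl2] at this
      exact this
    · rw [ha b (by omega)]
      exact h4 _ hP b hb
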