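import Pool.Agent.N449.SH.Main

/-!
# Numbers just above powers of two have no factorization into two sparse factors

The question asks for a prime among the numbers `2 ^ n + k`, `0 ≤ k ≤ p_n`. We look at the factorizations
`2 ^ n + k = d e` of the numbers of this kind which are not prime, for all `n` and all odd `k` up to a small power of
`2 ^ n` (much larger than `p_n`), and show that `d` and `e` cannot both have few binary digits, or few short blocks of
digits (signed digits are allowed), unless `|k|` and `2 ^ n` are both `r`-th powers for some prime `r`. This exception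
is necessary: `2 ^ (3 j) + m ^ 3 = (2 ^ j + m) (2 ^ (2 j) - m 2 ^ j + m ^ 2)`,
`2 ^ (2 j) - m ^ 2 = (2 ^ j - m) (2 ^ j + m)`.

More generally: let `b ≥ 2`, let `a b ^ n` and `k` be coprime and not both `r`-th powers up to sign for a prime
`r < n`, and let `a b ^ n + k = d e` with `|d|, |e| > 1`, `d = ∑_{i ∈ S} u_i b ^ i`, `e = ∑_{j ∈ T} v_j b ^ j`,
`|S| = s`, `|T| = t`, with arbitrary integers `u_i`, `v_j`. Then
`b ^ n ≤ (b + |a| + |k| + (∑ |u_i|) (∑ |v_j|)) ^ (4 t (8 t) ^ (s - 1))`.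

Proof (`Pool/Agent/N449/SH/Main.lean`). A number `q ≤ (8 t) ^ (s - 1)` is chosen by Dirichlet's theorem such that the
`q i / n`, `i ∈ S`, are close to integers `α_i`; comparison of the digits of `d e` and `a b ^ n + k` in suitable blocks
gives a factorization of the polynomial `a b ^ n X ^ q + k`, which is irreducible.
-/

set_option autoImplicit false

namespace Pool.Agent.Results.MP_78b39f_nt.SparseFactors

/-- **Sparse factors of `2 ^ n + k` and of `a b ^ n + k`.** -/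
theorem result :
    -- the numbers `2 ^ n + k`
    (∀ n k : ℕ, 0 < n → 3 ≤ k → Odd k →
      (∀ r m : ℕ, r.Prime → r ∣ n → m ^ r ≠ k) →
      ∀ d e : ℤ, d * e = 2 ^ n + k → 1 < |d| → 1 < |e| →
      ∀ (S T : Finset ℕ) (u v : ℕ → ℤ), d = ∑ i ∈ S, u i * 2 ^ i → e = ∑ j ∈ T, v j * 2 ^ j →
        2 ^ n ≤ (3 + k + (∑ i ∈ S, |u i|) * (∑ j ∈ T, |v j|)) ^
          (4 * T.card * (8 * T.card) ^ (S.card - 1))) ∧
    -- the numbers `a b ^ n + k`
    ∀ b n : ℕ, 2 ≤ b → 0 < n → ∀ a k : ℤ, a ≠ 0 → 2 ≤ |k| → IsCoprime (a * b) k →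
      (∀ r x y : ℕ, r.Prime → r < n → (x : ℤ) ^ r = |k| → (y : ℤ) ^ r = |a| * (b : ℤ) ^ n → False) →
      ∀ d e : ℤ, d * e = a * (b : ℤ) ^ n + k → 1 < |d| → 1 < |e| →
      ∀ (S T : Finset ℕ) (u v : ℕ → ℤ), d = ∑ i ∈ S, u i * (b : ℤ) ^ i →
        e = ∑ j ∈ T, v j * (b : ℤ) ^ j →
        (b : ℤ) ^ n ≤ (b + |a| + |k| + (∑ i ∈ S, |u i|) * (∑ j ∈ T, |v j|)) ^
          (4 * T.card * (8 * T.card) ^ (S.card - 1)) := by
  have main : ∀ b n : ℕ, 2 ≤ b → 0 < n → ∀ a k : ℤ, a ≠ 0 → 2 ≤ |k| → IsCoprime (a * b) k →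
      (∀ r x y : ℕ, r.Prime → r < n → (x : ℤ) ^ r = |k| → (y : ℤ) ^ r = |a| * (b : ℤ) ^ n → False) →
      ∀ d e : ℤ, d * e = a * (b : ℤ) ^ n + k → 1 < |d| → 1 < |e| →
      ∀ (S T : Finset ℕ) (u v : ℕ → ℤ), d = ∑ i ∈ S, u i * (b : ℤ) ^ i →
        e = ∑ j ∈ T, v j * (b : ℤ) ^ j →
        (b : ℤ) ^ n ≤ (b + |a| + |k| + (∑ i ∈ S, |u i|) * (∑ j ∈ T, |v j|)) ^
          (4 * T.card * (8 * T.card) ^ (S.card - 1)) := by
    intro b n hb hn a k ha hk hcop hpow d e h hd he S T u v hS hT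
    have hk0 : k ≠ 0 := by
      rintro rfl
      simp at hk
    exact Pool.Agent.N449.SH.final b hb n hn a k ha hk0 hcop hpow d e h hd he S T u v hS hT
  refine ⟨?_, main⟩
  intro n k hn hk hodd hpow d e h hd he S T u v hS hT
  have hcop : IsCoprime ((1 : ℤ) * ((2 : ℕ) : ℤ)) (k : ℤ) := by
    rw [one_mul, Nat.isCoprime_iff_coprime]
    exact (Nat.coprime_two_left (n := k)).2 hodd
  have h1 := main 2 n le_rfl hn 1 k one_ne_zero (by rw [Nat.abs_cast]; exact_mod_cast (by omega : 2 ≤ k)) hcop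
    (fun r x y hr _ hx hy => by
      have hx' : x ^ r = k := by rw [Nat.abs_cast] at hx; exact_mod_cast hx
      have hy' : y ^ r = 2 ^ n := by rw [abs_one, one_mul] at hy; exact_mod_cast hy
      refine hpow r x hr ?_ hx'
      obtain ⟨m, hm, rfl⟩ := (Nat.dvd_prime_pow Nat.prime_two).1
        ((dvd_pow_self y hr.ne_zero).trans (dvd_of_eq hy'))
      rw [← pow_mul] at hy'
      exact ⟨m, by rw [mul_comm]; exact (Nat.pow_right_injective le_rfl hy').symm⟩)
    d e (by rw [h]; push_cast; ring) hd he S T u v (by simpa using hS) (by simpa using hT)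
  have e1 : (((2 : ℕ) : ℤ) + |(1 : ℤ)| + |(k : ℤ)| + (∑ i ∈ S, |u i|) * (∑ j ∈ T, |v j|)) =
      3 + k + (∑ i ∈ S, |u i|) * (∑ j ∈ T, |v j|) := by
    rw [abs_one, Nat.abs_cast]; push_cast; ring
  rw [e1] at h1
  simpa using h1

end Pool.Agent.Results.MP_78b39f_nt.SparseFactors
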